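import Pool.Agent.H9.TC.F2

/-!
Quadratic recurrence (Heilbronn type lemma with a weak exponent): for every real `b` and every `g`
there is `1 <= D <= 2^(11 g + 12)` with `‖D^2 b‖ <= 2^(-g)`.
-/

set_option maxHeartbeats 4000000

namespace Pool.Agent.H20.TM

open Finset Pool.Agent.H9.TC

/-- distance to the nearest integer -/
noncomputable def nn (x : ℝ) : ℝ := |x - round x|

theorem nn_nonneg (x : ℝ) : 0 ≤ nn x := abs_nonneg _

theorem nn_le_half (x : ℝ) : nn x ≤ 1 / 2 := abs_sub_round x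

theorem nn_le (x : ℝ) (z : ℤ) : nn x ≤ |x - z| := round_le x z

theorem nn_add_le (x y : ℝ) : nn (x + y) ≤ nn x + nn y := by
  refine (nn_le (x + y) (round x + round y)).trans ?_
  push_cast
  unfold nn
  calc |x + y - (round x + round y)| = |(x - round x) + (y - round y)| := by ring_nf
    _ ≤ _ := abs_add_le _ _

theorem nn_neg (x : ℝ) : nn (-x) = nn x := by
  have key : ∀ y : ℝ, nn (-y) ≤ nn y := by
    intro y
    refine (nn_le (-y) (-round y)).trans ?_
    push_cast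
    unfold nn
    rw [← abs_neg]
    ring_nf
    exact le_refl _
  refine le_antisymm (key x) ?_
  have := key (-x)
  rwa [neg_neg] at this

theorem nn_sub_le (x y : ℝ) : nn (x - y) ≤ nn x + nn y := by
  have := nn_add_le x (-y)
  rwa [nn_neg, ← sub_eq_add_neg] at this

theorem nn_nat_mul (k : ℕ) (x : ℝ) : nn (k * x) ≤ k * nn x := by
  refine (nn_le _ (k * round x)).trans ?_
  push_cast
  unfold nn
  rw [← mul_sub, abs_mul, abs_of_nonneg (Nat.cast_nonneg k)]

theorem nn_le_abs (x : ℝ) : nn x ≤ |x| := by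
  have := nn_le x 0
  simpa using this

theorem nn_add_int (x : ℝ) (z : ℤ) : nn (x + z) = nn x := by
  unfold nn
  rw [round_add_intCast]
  push_cast
  ring_nf

/-- `e(x)` only depends on the fractional part -/
theorem ee_eq (x : ℝ) : ee x = ee (x - round x) := by
  have h : x = (x - round x) + (round x : ℤ) := by ring
  conv_lhs => rw [h, f2_ee_add, f2_ee_int, mul_one]

/-- linear sums -/
theorem lin_sum_le (N : ℕ) (θ ζ : ℝ) :
    ‖∑ i ∈ range N, ee (θ * i + ζ)‖ * (2 * nn θ) ≤ 1 := by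
  by_cases h0 : nn θ = 0
  · rw [h0]; norm_num
  have hpos : 0 < nn θ := lt_of_le_of_ne (nn_nonneg _) (Ne.symm h0)
  have e1 : ∑ i ∈ range N, ee (θ * i + ζ) = (∑ i ∈ range N, ee ((θ - round θ) * i)) * ee ζ := by
    rw [sum_mul]
    refine sum_congr rfl fun i _ => ?_
    rw [f2_ee_add]
    congr 1
    have : θ * (i : ℝ) = (θ - round θ) * i + ((round θ * (i : ℤ) : ℤ) : ℝ) := by
      push_cast; ring
    rw [this, f2_ee_add, f2_ee_int, mul_one]
  rw [e1, norm_mul, f2_norm_ee, mul_one]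
  have hx : θ - round θ ≠ 0 := by
    intro h
    apply h0
    unfold nn
    rw [h, abs_zero]
  have := f2_geom N hx (nn_le_half θ)
  have h2 : |θ - round θ| = nn θ := rfl
  rw [h2, le_div_iff₀ (by positivity)] at this
  exact this

/-- averaging over shifts -/
theorem shift_avg (f : ℕ → ℂ) (hf : ∀ n, ‖f n‖ ≤ 1) (X J : ℕ) :
    (J : ℝ) * ‖∑ n ∈ range X, f n‖ ≤ (∑ n ∈ range X, ‖∑ j ∈ range J, f (n + j)‖) + (J : ℝ) ^ 2 := by
  have h1 : ∀ j : ℕ, ‖∑ n ∈ range X, f n - ∑ n ∈ range X, f (n + j)‖ ≤ 2 * j := by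
    intro j
    induction j with
    | zero => simp
    | succ j ih =>
      have e1 : ∑ n ∈ range X, f n - ∑ n ∈ range X, f (n + (j + 1)) =
          (∑ n ∈ range X, f n - ∑ n ∈ range X, f (n + j)) + (f j - f (X + j)) := by
        have h2 := Finset.sum_range_succ (fun n => f (n + j)) X
        have h3 := Finset.sum_range_succ' (fun n => f (n + j)) X
        have h4 : ∑ n ∈ range X, f (n + 1 + j) = ∑ n ∈ range X, f (n + (j + 1)) := by
          refine sum_congr rfl fun n _ => ?_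
          congr 1
          ring
        rw [h4, zero_add] at h3
        rw [h2] at h3
        linear_combination h3
      rw [e1]
      have h5 : ‖f j - f (X + j)‖ ≤ 2 := by
        calc ‖f j - f (X + j)‖ ≤ ‖f j‖ + ‖f (X + j)‖ := norm_sub_le _ _
          _ ≤ 2 := by linarith [hf j, hf (X + j)]
      push_cast
      calc _ ≤ ‖∑ n ∈ range X, f n - ∑ n ∈ range X, f (n + j)‖ + ‖f j - f (X + j)‖ :=
            norm_add_le _ _
        _ ≤ _ := by linarith
  have h2 : (J : ℂ) * ∑ n ∈ range X, f n =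
      (∑ n ∈ range X, ∑ j ∈ range J, f (n + j)) +
        ∑ j ∈ range J, (∑ n ∈ range X, f n - ∑ n ∈ range X, f (n + j)) := by
    rw [sum_comm, ← sum_add_distrib]
    simp
  have h3 : (J : ℝ) * ‖∑ n ∈ range X, f n‖ = ‖(J : ℂ) * ∑ n ∈ range X, f n‖ := by
    rw [norm_mul, Complex.norm_natCast]
  rw [h3, h2]
  refine (norm_add_le _ _).trans ?_
  have h4 : ‖∑ n ∈ range X, ∑ j ∈ range J, f (n + j)‖ ≤
      ∑ n ∈ range X, ‖∑ j ∈ range J, f (n + j)‖ := norm_sum_le _ _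
  have h5 : ‖∑ j ∈ range J, (∑ n ∈ range X, f n - ∑ n ∈ range X, f (n + j))‖ ≤ (J : ℝ) ^ 2 := by
    refine (norm_sum_le _ _).trans ((sum_le_sum fun j _ => h1 j).trans ?_)
    rw [← mul_sum]
    have : ∀ J : ℕ, 2 * ∑ j ∈ range J, (j : ℝ) ≤ (J : ℝ) ^ 2 := by
      intro J
      induction J with
      | zero => simp
      | succ J ih => rw [sum_range_succ]; push_cast; nlinarith
    exact this J
  linarith

/-- the square of the inner sums -/
theorem sq_sum_bound (θ η : ℝ) (X J : ℕ) (hη : 0 < η)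
    (h : ∀ i : ℕ, 1 ≤ i → i < J → η < nn (2 * i * θ)) :
    ∑ n ∈ range X, ‖∑ j ∈ range J, ee (θ * ((n + j : ℕ) : ℝ) ^ 2)‖ ^ 2 ≤
      (J : ℝ) * X + (J : ℝ) ^ 2 * (1 / (2 * η)) := by
  have e1 : ∀ n : ℕ, ((‖∑ j ∈ range J, ee (θ * ((n + j : ℕ) : ℝ) ^ 2)‖ ^ 2 : ℝ) : ℂ) =
      ∑ j ∈ range J, ∑ j' ∈ range J,
        ee (θ * ((n + j : ℕ) : ℝ) ^ 2) * (starRingEnd ℂ) (ee (θ * ((n + j' : ℕ) : ℝ) ^ 2)) := by
    intro n
    have := Complex.mul_conj (∑ j ∈ range J, ee (θ * ((n + j : ℕ) : ℝ) ^ 2))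
    rw [Complex.normSq_eq_norm_sq] at this
    rw [← this, map_sum, sum_mul_sum]
  have e2 : ((∑ n ∈ range X, ‖∑ j ∈ range J, ee (θ * ((n + j : ℕ) : ℝ) ^ 2)‖ ^ 2 : ℝ) : ℂ) =
      ∑ j ∈ range J, ∑ j' ∈ range J, ∑ n ∈ range X,
        ee (2 * ((j : ℝ) - j') * θ * n + θ * ((j : ℝ) ^ 2 - (j' : ℝ) ^ 2)) := by
    rw [Complex.ofReal_sum, sum_congr rfl fun n _ => e1 n, sum_comm]
    refine sum_congr rfl fun j _ => ?_
    rw [sum_comm]
    refine sum_congr rfl fun j' _ => sum_congr rfl fun n _ => ?_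
    rw [← f2_ee_neg, ← f2_ee_add]
    congr 1
    push_cast
    ring
  have e3 : ∑ n ∈ range X, ‖∑ j ∈ range J, ee (θ * ((n + j : ℕ) : ℝ) ^ 2)‖ ^ 2 =
      ‖∑ j ∈ range J, ∑ j' ∈ range J, ∑ n ∈ range X,
        ee (2 * ((j : ℝ) - j') * θ * n + θ * ((j : ℝ) ^ 2 - (j' : ℝ) ^ 2))‖ := by
    rw [← e2, Complex.norm_real, Real.norm_eq_abs, abs_of_nonneg]
    exact sum_nonneg fun n _ => by positivity
  rw [e3]
  have e4 : ∀ j ∈ range J, ∀ j' ∈ range J, ‖∑ n ∈ range X,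
      ee (2 * ((j : ℝ) - j') * θ * n + θ * ((j : ℝ) ^ 2 - (j' : ℝ) ^ 2))‖ ≤
        (if j = j' then (X : ℝ) else 0) + 1 / (2 * η) := by
    intro j hj j' hj'
    rw [mem_range] at hj hj'
    split_ifs with hjj
    · have : ‖∑ n ∈ range X,
          ee (2 * ((j : ℝ) - j') * θ * n + θ * ((j : ℝ) ^ 2 - (j' : ℝ) ^ 2))‖ ≤ X := by
        refine (norm_sum_le _ _).trans ?_
        simp [f2_norm_ee]
      have h0 : 0 ≤ 1 / (2 * η) := by positivity
      linarith
    · rw [zero_add]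
      have h1 := lin_sum_le X (2 * ((j : ℝ) - j') * θ) (θ * ((j : ℝ) ^ 2 - (j' : ℝ) ^ 2))
      have h2 : η < nn (2 * ((j : ℝ) - j') * θ) := by
        rcases lt_or_gt_of_ne hjj with h3 | h3
        · have := h (j' - j) (by omega) (by omega)
          rw [Nat.cast_sub h3.le] at this
          rw [← nn_neg]
          convert this using 2
          ring
        · have := h (j - j') (by omega) (by omega)
          rw [Nat.cast_sub h3.le] at this
          exact this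
      have h4 := norm_nonneg (∑ n ∈ range X,
          ee (2 * ((j : ℝ) - j') * θ * n + θ * ((j : ℝ) ^ 2 - (j' : ℝ) ^ 2)))
      rw [le_div_iff₀ (by positivity)]
      nlinarith
  refine (norm_sum_le _ _).trans ((sum_le_sum fun j _ => norm_sum_le _ _).trans
    ((sum_le_sum fun j hj => sum_le_sum fun j' hj' => e4 j hj j' hj').trans ?_))
  apply le_of_eq
  simp only [sum_add_distrib, sum_ite_eq, sum_const, card_range, nsmul_eq_mul, mem_range]
  have : ∀ j ∈ range J, (if j < J then (X : ℝ) else 0) = X := by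
    intro j hj
    rw [if_pos (mem_range.1 hj)]
  rw [sum_congr rfl this]
  simp
  ring

/-- if no small multiple `2 i θ` is close to an integer then the quadratic sum is small -/
theorem quad_sum_le (θ η : ℝ) (X J : ℕ) (hη : 0 < η)
    (h : ∀ i : ℕ, 1 ≤ i → i < J → η < nn (2 * i * θ)) :
    ((J : ℝ) * ‖∑ n ∈ range X, ee (θ * (n : ℝ) ^ 2)‖ - (J : ℝ) ^ 2) ≤
      Real.sqrt (X * ((J : ℝ) * X + (J : ℝ) ^ 2 * (1 / (2 * η)))) := by
  have h1 := shift_avg (fun n => ee (θ * (n : ℝ) ^ 2)) (fun n => (f2_norm_ee _).le) X J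
  have h2 := sq_sum_bound θ η X J hη h
  have h3 : (∑ n ∈ range X, ‖∑ j ∈ range J, ee (θ * ((n + j : ℕ) : ℝ) ^ 2)‖) ^ 2 ≤
      X * ∑ n ∈ range X, ‖∑ j ∈ range J, ee (θ * ((n + j : ℕ) : ℝ) ^ 2)‖ ^ 2 := by
    have := sq_sum_le_card_mul_sum_sq (s := range X)
      (f := fun n => ‖∑ j ∈ range J, ee (θ * ((n + j : ℕ) : ℝ) ^ 2)‖)
    rwa [card_range] at this
  have h4 : ∑ n ∈ range X, ‖∑ j ∈ range J, ee (θ * ((n + j : ℕ) : ℝ) ^ 2)‖ ≤
      Real.sqrt (X * ((J : ℝ) * X + (J : ℝ) ^ 2 * (1 / (2 * η)))) := by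
    apply Real.le_sqrt_of_sq_le
    exact h3.trans (mul_le_mul_of_nonneg_left h2 (Nat.cast_nonneg _))
  linarith

/-- some `D` in a long range has `D^2 b` close to an integer -/
theorem quad_rec (g : ℕ) (b : ℝ) :
    ∃ D : ℕ, 1 ≤ D ∧ D ≤ 2 ^ (11 * g + 12) ∧ nn ((D : ℝ) ^ 2 * b) ≤ (1 / 2) ^ g := by
  by_contra hcon
  push Not at hcon
  set X : ℕ := 2 ^ (11 * g + 12) with hX
  set K : ℕ := 4 ^ g with hK
  set J : ℕ := 64 * 16 ^ g with hJ
  set η : ℝ := 32 * 16 ^ g / X with hη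
  have hXpos : (0 : ℝ) < X := by rw [hX]; positivity
  have hηpos : 0 < η := by rw [hη]; positivity
  -- step 1: sum over `D` of `|sum_{i < K} e(i D^2 b)|^2`
  have s1 : ∀ D ∈ range X, 1 ≤ D → ‖∑ i ∈ range K, ee ((D : ℝ) ^ 2 * b * i)‖ ≤ 2 ^ g / 2 := by
    intro D hD hD1
    have h1 := hcon D hD1 (mem_range.1 hD).le
    have h2 := lin_sum_le K ((D : ℝ) ^ 2 * b) 0
    simp only [add_zero] at h2
    have h3 := norm_nonneg (∑ i ∈ range K, ee ((D : ℝ) ^ 2 * b * i))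
    have h4 : ((1 : ℝ) / 2) ^ g * 2 ^ g = 1 := by rw [← mul_pow]; norm_num
    have h5 : (0 : ℝ) < 2 ^ g := by positivity
    nlinarith [mul_le_mul_of_nonneg_left h1.le h3]
  have s2 : ∑ D ∈ range X, ‖∑ i ∈ range K, ee ((D : ℝ) ^ 2 * b * i)‖ ^ 2 ≤
      (K : ℝ) ^ 2 + X * ((K : ℝ) / 4) := by
    have hK2 : (K : ℝ) = (2 ^ g) ^ 2 := by
      rw [hK]; push_cast; rw [← pow_mul, mul_comm, pow_mul]; norm_num
    have h1 : ∀ D ∈ range X, ‖∑ i ∈ range K, ee ((D : ℝ) ^ 2 * b * i)‖ ^ 2 ≤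
        (if D = 0 then (K : ℝ) ^ 2 else 0) + (K : ℝ) / 4 := by
      intro D hD
      split_ifs with h0
      · have : ‖∑ i ∈ range K, ee ((D : ℝ) ^ 2 * b * i)‖ ≤ K := by
          refine (norm_sum_le _ _).trans ?_
          simp [f2_norm_ee]
        have h2 : (0 : ℝ) ≤ K := Nat.cast_nonneg _
        have h3 := norm_nonneg (∑ i ∈ range K, ee ((D : ℝ) ^ 2 * b * i))
        nlinarith
      · have := s1 D hD (Nat.one_le_iff_ne_zero.2 h0)
        have h3 := norm_nonneg (∑ i ∈ range K, ee ((D : ℝ) ^ 2 * b * i))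
        rw [zero_add, hK2]
        nlinarith
    refine (sum_le_sum h1).trans ?_
    rw [sum_add_distrib]
    simp only [sum_ite_eq', sum_const, card_range, nsmul_eq_mul]
    have : (if 0 ∈ range X then (K : ℝ) ^ 2 else 0) ≤ (K : ℝ) ^ 2 := by
      split_ifs
      · exact le_refl _
      · positivity
    linarith
  -- step 2: expand
  have e1 : ∀ D : ℕ, ((‖∑ i ∈ range K, ee ((D : ℝ) ^ 2 * b * i)‖ ^ 2 : ℝ) : ℂ) =
      ∑ i ∈ range K, ∑ i' ∈ range K, ee (((i : ℝ) - i') * b * (D : ℝ) ^ 2) := by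
    intro D
    have := Complex.mul_conj (∑ i ∈ range K, ee ((D : ℝ) ^ 2 * b * i))
    rw [Complex.normSq_eq_norm_sq] at this
    rw [← this, map_sum, sum_mul_sum]
    refine sum_congr rfl fun i _ => sum_congr rfl fun i' _ => ?_
    rw [← f2_ee_neg, ← f2_ee_add]
    congr 1
    ring
  have e2 : ((∑ D ∈ range X, ‖∑ i ∈ range K, ee ((D : ℝ) ^ 2 * b * i)‖ ^ 2 : ℝ) : ℂ) =
      ∑ i ∈ range K, ∑ i' ∈ range K, ∑ D ∈ range X, ee (((i : ℝ) - i') * b * (D : ℝ) ^ 2) := by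
    rw [Complex.ofReal_sum, sum_congr rfl fun n _ => e1 n, sum_comm]
    exact sum_congr rfl fun j _ => sum_comm
  -- step 3: some off diagonal sum is large
  have s3 : ∃ i ∈ range K, ∃ i' ∈ range K, i ≠ i' ∧
      (X : ℝ) / (2 * K) ≤ ‖∑ D ∈ range X, ee (((i : ℝ) - i') * b * (D : ℝ) ^ 2)‖ := by
    by_contra hc
    push Not at hc
    have h1 : ∀ i ∈ range K, ‖∑ i' ∈ range K, (if i = i' then (0 : ℂ) else
        ∑ D ∈ range X, ee (((i : ℝ) - i') * b * (D : ℝ) ^ 2))‖ ≤ X / 2 := by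
      intro i hi
      refine (norm_sum_le _ _).trans ?_
      have : ∀ i' ∈ range K, ‖(if i = i' then (0 : ℂ) else
          ∑ D ∈ range X, ee (((i : ℝ) - i') * b * (D : ℝ) ^ 2))‖ ≤ X / (2 * K) := by
        intro i' hi'
        split_ifs with h
        · rw [norm_zero]; positivity
        · exact (hc i hi i' hi' h).le
      refine (sum_le_sum this).trans ?_
      rw [sum_const, card_range, nsmul_eq_mul]
      have hKpos : (0 : ℝ) < K := by rw [hK]; positivity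
      apply le_of_eq
      field_simp
    have h2 : ((∑ D ∈ range X, ‖∑ i ∈ range K, ee ((D : ℝ) ^ 2 * b * i)‖ ^ 2 : ℝ) : ℂ) =
        (K : ℂ) * X + ∑ i ∈ range K, ∑ i' ∈ range K, (if i = i' then (0 : ℂ) else
        ∑ D ∈ range X, ee (((i : ℝ) - i') * b * (D : ℝ) ^ 2)) := by
      rw [e2]
      have : (K : ℂ) * X = ∑ i ∈ range K, ∑ i' ∈ range K, (if i = i' then (X : ℂ) else 0) := by
        have h3 : ∀ i ∈ range K, ∑ i' ∈ range K, (if i = i' then (X : ℂ) else 0) = X := by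
          intro i hi
          rw [sum_ite_eq, if_pos hi]
        rw [sum_congr rfl h3]
        simp
      rw [this, ← sum_add_distrib]
      refine sum_congr rfl fun i _ => ?_
      rw [← sum_add_distrib]
      refine sum_congr rfl fun i' _ => ?_
      split_ifs with h
      · subst h
        simp [ee]
      · simp
    have h3 : ‖((∑ D ∈ range X, ‖∑ i ∈ range K, ee ((D : ℝ) ^ 2 * b * i)‖ ^ 2 : ℝ) : ℂ)‖ ≤
        (K : ℝ) ^ 2 + X * ((K : ℝ) / 4) := by
      rw [Complex.norm_real, Real.norm_eq_abs, abs_of_nonneg (sum_nonneg fun n _ => by positivity)]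
      exact s2
    have h4 : ‖(K : ℂ) * X‖ ≤ (K : ℝ) ^ 2 + X * ((K : ℝ) / 4) + K * (X / 2) := by
      have h5 : (K : ℂ) * X = ((∑ D ∈ range X, ‖∑ i ∈ range K,
          ee ((D : ℝ) ^ 2 * b * i)‖ ^ 2 : ℝ) : ℂ) -
          ∑ i ∈ range K, ∑ i' ∈ range K, (if i = i' then (0 : ℂ) else
            ∑ D ∈ range X, ee (((i : ℝ) - i') * b * (D : ℝ) ^ 2)) := by
        rw [h2]; ring
      rw [h5]
      refine (norm_sub_le _ _).trans (add_le_add h3 ?_)
      refine (norm_sum_le _ _).trans ((sum_le_sum h1).trans ?_)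
      rw [sum_const, card_range, nsmul_eq_mul]
    rw [norm_mul, Complex.norm_natCast, Complex.norm_natCast] at h4
    have hKpos : (0 : ℝ) < K := by rw [hK]; positivity
    have h6 : (4 : ℝ) * K < X := by
      rw [hK, hX]
      push_cast
      have : (4 : ℝ) ^ g = 2 ^ (2 * g) := by rw [pow_mul]; norm_num
      rw [this]
      calc (4 : ℝ) * 2 ^ (2 * g) = 2 ^ (2 * g + 2) := by ring
        _ < 2 ^ (11 * g + 12) := pow_lt_pow_right₀ (by norm_num) (by omega)
    nlinarith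
  obtain ⟨i, hi, i', hi', hii, hbig⟩ := s3
  rw [mem_range] at hi hi'
  -- step 4: quantities
  have pK : (K : ℝ) = 4 ^ g := by rw [hK]; push_cast; rfl
  have pJ : (J : ℝ) = 64 * 16 ^ g := by rw [hJ]; push_cast; ring
  have pX : (X : ℝ) = 4096 * (2 ^ g) ^ 11 := by
    rw [hX]; push_cast; rw [pow_add, ← pow_mul, mul_comm 11 g]; norm_num; ring
  set y : ℝ := 2 ^ g with hy
  have hy1 : 1 ≤ y := by rw [hy]; exact one_le_pow₀ (by norm_num)
  have p4 : (4 : ℝ) ^ g = y ^ 2 := by rw [hy, ← pow_mul, mul_comm, pow_mul]; norm_num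
  have p16 : (16 : ℝ) ^ g = y ^ 4 := by rw [hy, ← pow_mul, mul_comm, pow_mul]; norm_num
  -- step 5: an `h < J` with `2 h (i - i') b` close to an integer
  have s5 : ∃ h : ℕ, 1 ≤ h ∧ h < J ∧ nn (2 * h * (((i : ℝ) - i') * b)) ≤ η := by
    by_contra hc
    push Not at hc
    have h1 := quad_sum_le (((i : ℝ) - i') * b) η X J hηpos hc
    have h2 : (J : ℝ) * (X / (2 * K)) - (J : ℝ) ^ 2 ≤
        Real.sqrt (X * ((J : ℝ) * X + (J : ℝ) ^ 2 * (1 / (2 * η)))) := by
      refine le_trans ?_ h1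
      have := mul_le_mul_of_nonneg_left hbig (Nat.cast_nonneg J)
      linarith
    have h3 : (J : ℝ) * (X / (2 * K)) - (J : ℝ) ^ 2 ≥ (J : ℝ) * (X / (4 * K)) := by
      rw [pJ, pK, pX, p4, p16]
      have e1 : 64 * y ^ 4 * (4096 * y ^ 11 / (2 * y ^ 2)) = 131072 * y ^ 13 := by
        field_simp; ring
      have e2 : 64 * y ^ 4 * (4096 * y ^ 11 / (4 * y ^ 2)) = 65536 * y ^ 13 := by
        field_simp; ring
      rw [e1, e2]
      have : y ^ 8 ≤ y ^ 13 := pow_le_pow_right₀ hy1 (by norm_num)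
      nlinarith
    have h4 : (J : ℝ) * (X / (4 * K)) ≤
        Real.sqrt (X * ((J : ℝ) * X + (J : ℝ) ^ 2 * (1 / (2 * η)))) := h3.le.trans h2
    have h5 : ((J : ℝ) * (X / (4 * K))) ^ 2 ≤
        X * ((J : ℝ) * X + (J : ℝ) ^ 2 * (1 / (2 * η))) := by
      have h6 : 0 ≤ (J : ℝ) * (X / (4 * K)) := by positivity
      have h7 : 0 ≤ X * ((J : ℝ) * X + (J : ℝ) ^ 2 * (1 / (2 * η))) := by positivity
      calc ((J : ℝ) * (X / (4 * K))) ^ 2 ≤
          (Real.sqrt (X * ((J : ℝ) * X + (J : ℝ) ^ 2 * (1 / (2 * η))))) ^ 2 :=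
            pow_le_pow_left₀ h6 h4 2
        _ = _ := Real.sq_sqrt h7
    rw [hη, pJ, pK, pX, p4, p16] at h5
    have hypos : 0 < y := by linarith
    have e1 : (64 * y ^ 4 * (4096 * y ^ 11 / (4 * y ^ 2))) ^ 2 = 4294967296 * y ^ 26 := by
      field_simp; ring
    have e2 : 4096 * y ^ 11 * (64 * y ^ 4 * (4096 * y ^ 11) + (64 * y ^ 4) ^ 2 *
        (1 / (2 * (32 * y ^ 4 / (4096 * y ^ 11))))) = 2147483648 * y ^ 26 := by
      field_simp
      ring
    rw [e1, e2] at h5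
    have : 0 < y ^ 26 := by positivity
    linarith
  obtain ⟨h, h1, h2, h3⟩ := s5
  -- step 6: `D = 2 h |i - i'|`
  set m : ℕ := Int.natAbs ((i : ℤ) - i') with hm
  have hm1 : 1 ≤ m := by omega
  have hmK : m ≤ K := by omega
  have hD1 : 1 ≤ 2 * h * m := by nlinarith
  have hDX : 2 * h * m ≤ X := by
    have a1 : 2 * h * m ≤ 2 * J * K := by nlinarith
    refine a1.trans ?_
    rw [hJ, hK, hX]
    have q1 : 64 * (16 : ℕ) ^ g = 2 ^ (4 * g + 6) := by
      rw [pow_add, pow_mul]; norm_num; ring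
    have q2 : (4 : ℕ) ^ g = 2 ^ (2 * g) := by rw [pow_mul]; norm_num
    rw [q1, q2]
    calc 2 * 2 ^ (4 * g + 6) * 2 ^ (2 * g) = 2 ^ (6 * g + 7) := by ring
      _ ≤ 2 ^ (11 * g + 12) := Nat.pow_le_pow_right (by norm_num) (by omega)
  have h4 := hcon (2 * h * m) hD1 hDX
  have h5 : nn (((2 * h * m : ℕ) : ℝ) ^ 2 * b) ≤ (2 * h * m : ℕ) * η := by
    have a1 : nn (2 * h * m * b) ≤ η := by
      rcases le_total (0 : ℤ) ((i : ℤ) - i') with hc | hc
      · have a2 : (m : ℤ) = (i : ℤ) - i' := by omega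
        have a3 : (m : ℝ) = (i : ℝ) - i' := by exact_mod_cast a2
        rw [a3]
        convert h3 using 2
        ring
      · have a2 : (m : ℤ) = -((i : ℤ) - i') := by omega
        have a3 : (m : ℝ) = -((i : ℝ) - i') := by exact_mod_cast a2
        rw [a3, ← nn_neg]
        convert h3 using 2
        ring
    have a4 := nn_nat_mul (2 * h * m) (2 * h * m * b)
    have a5 : ((2 * h * m : ℕ) : ℝ) ^ 2 * b = ((2 * h * m : ℕ) : ℝ) * (2 * h * m * b) := by
      push_cast; ring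
    rw [a5]
    exact a4.trans (mul_le_mul_of_nonneg_left a1 (Nat.cast_nonneg _))
  have h6 : ((2 * h * m : ℕ) : ℝ) * η ≤ (1 / 2) ^ g := by
    have a1 : ((2 * h * m : ℕ) : ℝ) ≤ 2 * J * K := by
      have : 2 * h * m ≤ 2 * J * K := by nlinarith
      exact_mod_cast this
    have a2 : (2 * J * K : ℝ) * η = (1 / 2) ^ g := by
      rw [hη, pJ, pK, pX, p4, p16]
      have a3 : ((1 : ℝ) / 2) ^ g = 1 / y := by rw [one_div_pow]
      rw [a3]
      field_simp
      ring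
    calc _ ≤ (2 * J * K : ℝ) * η := mul_le_mul_of_nonneg_right a1 hηpos.le
      _ = _ := a2
  linarith

end Pool.Agent.H20.TM
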